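import Pool.Agent.Helper25_CN2.Stmts

/-!
# Squad CN2, module K_DM
-/

set_option autoImplicit false

namespace Pool.Agent.CN2.H48

open Pool.Agent.H25Cong Pool.Agent.CON Pool.Agent.CN2

theorem k_dm (h3m : K_3M) (hJD : J_D) (hJAX : J_AX) (hJAM : J_AM) : K_DM := by
  intro M _ b k C s τ hPD hCT hBad i0 i1 hs0 hs1 hne hmid
  have h3 := h3m M b k C s τ hPD hCT hBad i0 i1
  refine ⟨?_, ?_⟩
  · intro m hm hτ
    have hty := hCT.ty i0
    rw [hτ] at hty
    obtain ⟨h4, F, hF, hin⟩ := hty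
    obtain ⟨x, hx, hx4, hy, hJR⟩ := hJD M b (C i0) (s i0) m 6 F hPD (hCT.irr i0) hs0 hF hin
      (by norm_num) (by decide) (by omega)
    refine h3 ⟨x, hx, ?_, hy, ?_⟩ hne hs1 hmid
    · have : b x x - 2 = (b x x - ((6 : ℕ) : ℤ)) + 4 := by push_cast; ring
      rw [this]
      exact dvd_add hx4 (dvd_refl _)
    · intro t ρ h
      exact hJR t ρ h
  · intro hτ
    have hty := hCT.ty i0
    rw [hτ] at hty
    obtain ⟨h4, F, hF, hin⟩ := hty
    obtain ⟨hx, -, hx4, hy, -⟩ := hJAX M b (C i0) (s i0) 7 6 F hPD (hCT.irr i0) hs0 hF hin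
      (by norm_num) (by decide) (by omega)
    have hJR := hJAM M b (C i0) (s i0) 7 6 F hPD (hCT.irr i0) hs0 hF hin
      (by norm_num) (by decide) (by omega)
    refine h3 ⟨xA F 6, hx, ?_, hy, ?_⟩ hne hs1 hmid
    · have : b (xA F 6) (xA F 6) - 2 = (b (xA F 6) (xA F 6) - ((6 : ℕ) : ℤ)) + 4 := by
        push_cast; ring
      rw [this]
      exact dvd_add hx4 (dvd_refl _)
    · intro t ρ h
      obtain ⟨h1, h2⟩ := hJR t ρ h
      refine ⟨h1, fun h5 => ?_⟩
      rcases h2 h5 with h6 | ⟨d, hd1, hd2, -, hd3, -⟩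
      · exact h6.1
      · exfalso
        push_cast at hd3
        apply hd2
        have : d = 4 := by linarith
        rw [this]
        norm_num

end Pool.Agent.CN2.H48
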